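import Pool.Agent.E8helper19.LC.Stm3
import Pool.Agent.E8helper63.LC.OneD

set_option autoImplicit false
open MeasureTheory Filter Topology Set
open scoped ContDiff Real

namespace Pool.Agent.E8helper59.LC

open Pool.Agent.E8helper19.LC Pool.Agent.E8helper63.LC

lemma left (h : S_1DA) (V : ℝ → ℝ) (hVc : Continuous V) (hVs : HasCompactSupport V)
    (hV0 : ∀ s, 0 ≤ V s) (k : ℝ) (hk1 : 1 ≤ k) (hkI : ∫ s, V s ≤ k) (f : ℝ → ℂ) (r t : ℂ)
    (hl : LeftIn1 k V f r t) :
    (∀ s, ‖f s‖ ≤ 2) ∧ (∀ s, ‖deriv f s‖ ≤ 2 * k) ∧ (∀ s, f s = pw k s + K0 k V f s) ∧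
      ∀ s, ‖f s - pw k s‖ ≤ (∫ s, V s) / k := by
  have hk : 0 < k := by linarith
  obtain ⟨hBC, heq, -, -⟩ := (h k V f r t hk hVc hVs).1 hl
  have hVcC : Continuous (fun s => (V s : ℂ)) := Complex.continuous_ofReal.comp hVc
  have hVsC : HasCompactSupport (fun s => (V s : ℂ)) := by
    apply hVs.comp_left (g := fun x : ℝ => (x : ℂ))
    simp
  have hfc : Continuous f := hBC.cont
  have hc : Continuous (fun s => (V s : ℂ) * f s) := hVcC.mul hfc
  have hs : HasCompactSupport (fun s => (V s : ℂ) * f s) := hVsC.mul_right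
  have hVi : Integrable V := hVc.integrable_of_hasCompactSupport hVs
  have hci : Integrable (fun s => (V s : ℂ) * f s) := hc.integrable_of_hasCompactSupport hs
  have hI0 : 0 ≤ ∫ s, V s := integral_nonneg hV0
  have hU : ∀ s, K0 k V f s = ∫ t, g0 k (s - t) * ((V t : ℂ) * f t) := fun s => rfl
  have hcoef : ‖Complex.I / (2 * (k : ℂ))‖ = 1 / (2 * k) := by
    rw [norm_div, Complex.norm_I, norm_mul, Complex.norm_real, Real.norm_eq_abs, abs_of_pos hk]
    norm_num
  -- the integral of `|V f|`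
  have hVf : ∀ B : ℝ, (∀ s, ‖f s‖ ≤ B) → ∫ t, ‖(V t : ℂ) * f t‖ ≤ (∫ s, V s) * B := by
    intro B hB
    rw [← integral_mul_const]
    refine integral_mono hci.norm (hVi.mul_const B) ?_
    intro s
    simp only
    rw [norm_mul, Complex.norm_real, Real.norm_eq_abs, abs_of_nonneg (hV0 s)]
    exact mul_le_mul_of_nonneg_left (hB s) (hV0 s)
  have hK : ∀ B : ℝ, (∀ s, ‖f s‖ ≤ B) → ∀ s, ‖K0 k V f s‖ ≤ 1 / (2 * k) * ((∫ s, V s) * B) := by
    intro B hB s
    have h7 := U_bdd (k := k) hc hs s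
    rw [hcoef, ← hU s] at h7
    refine h7.trans ?_
    exact mul_le_mul_of_nonneg_left (hVf B hB) (by positivity)
  have hfp : ∀ s, f s - pw k s = K0 k V f s := by
    intro s
    rw [heq s]
    ring
  -- the sup norm
  have hbdd : BddAbove (range fun s => ‖f s‖) := by
    obtain ⟨C, hC⟩ := hBC.bdd
    exact ⟨C, by rintro _ ⟨s, rfl⟩; exact hC s⟩
  have hsup : ∀ s, ‖f s‖ ≤ ⨆ s, ‖f s‖ := fun s => le_ciSup hbdd s
  have hB0 : 0 ≤ ⨆ s, ‖f s‖ := (norm_nonneg _).trans (hsup 0)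
  have hIB : 1 / (2 * k) * ((∫ s, V s) * ⨆ s, ‖f s‖) ≤ (⨆ s, ‖f s‖) / 2 := by
    have h1 : (∫ s, V s) * (⨆ s, ‖f s‖) ≤ k * ⨆ s, ‖f s‖ := mul_le_mul_of_nonneg_right hkI hB0
    have h2 : 1 / (2 * k) * ((∫ s, V s) * ⨆ s, ‖f s‖) ≤ 1 / (2 * k) * (k * ⨆ s, ‖f s‖) :=
      mul_le_mul_of_nonneg_left h1 (by positivity)
    refine h2.trans (le_of_eq ?_)
    field_simp
  have hB2 : (⨆ s, ‖f s‖) ≤ 1 + (⨆ s, ‖f s‖) / 2 := by
    apply ciSup_le
    intro s
    have h1 := hK _ hsup s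
    rw [heq s]
    refine (norm_add_le _ _).trans ?_
    rw [pw_zero_norm]
    linarith
  have hle2 : ∀ s, ‖f s‖ ≤ 2 := fun s => (hsup s).trans (by linarith)
  refine ⟨hle2, ?_, heq, ?_⟩
  · intro s
    have hfe : f = fun s => pw k s + ∫ t, g0 k (s - t) * ((V t : ℂ) * f t) := funext heq
    have hd1 : HasDerivAt f (Complex.I * k * pw k s + (-(1 / 2) * (pw k s * (∫ t in Iic s, pw (-k) t * ((V t : ℂ) * f t)) -
        pw (-k) s * (∫ t in Ioi s, pw k t * ((V t : ℂ) * f t))))) s := by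
      have := (pw_deriv k s).add (U_deriv hk hc hs s)
      exact this.congr_of_eventuallyEq (Eventually.of_forall fun s => heq s)
    rw [hd1.deriv]
    have b1 : ‖Complex.I * k * pw k s‖ = k := by
      rw [norm_mul, norm_mul, Complex.norm_I, pw_zero_norm, Complex.norm_real, Real.norm_eq_abs,
        abs_of_pos hk]
      ring
    have b2 : ‖∫ t in Iic s, pw (-k) t * ((V t : ℂ) * f t)‖ ≤ ∫ t in Iic s, ‖(V t : ℂ) * f t‖ := by
      refine (norm_integral_le_integral_norm _).trans (le_of_eq ?_)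
      apply integral_congr_ae
      filter_upwards with t
      rw [norm_mul, pw_zero_norm, one_mul]
    have b3 : ‖∫ t in Ioi s, pw k t * ((V t : ℂ) * f t)‖ ≤ ∫ t in Ioi s, ‖(V t : ℂ) * f t‖ := by
      refine (norm_integral_le_integral_norm _).trans (le_of_eq ?_)
      apply integral_congr_ae
      filter_upwards with t
      rw [norm_mul, pw_zero_norm, one_mul]
    have b4 : (∫ t in Iic s, ‖(V t : ℂ) * f t‖) + (∫ t in Ioi s, ‖(V t : ℂ) * f t‖) =
        ∫ t, ‖(V t : ℂ) * f t‖ := by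
      rw [← integral_add_compl (measurableSet_Iic (a := s)) hci.norm, compl_Iic]
    have b5 := hVf 2 hle2
    have b6 : ‖(-(1 / 2) * (pw k s * (∫ t in Iic s, pw (-k) t * ((V t : ℂ) * f t)) -
        pw (-k) s * (∫ t in Ioi s, pw k t * ((V t : ℂ) * f t))) : ℂ)‖ ≤ ∫ s, V s := by
      rw [norm_mul]
      have : ‖(-(1 / 2) : ℂ)‖ = 1 / 2 := by norm_num
      rw [this]
      have b7 : ‖pw k s * (∫ t in Iic s, pw (-k) t * ((V t : ℂ) * f t)) -
        pw (-k) s * (∫ t in Ioi s, pw k t * ((V t : ℂ) * f t))‖ ≤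
          ‖∫ t in Iic s, pw (-k) t * ((V t : ℂ) * f t)‖ + ‖∫ t in Ioi s, pw k t * ((V t : ℂ) * f t)‖ := by
        refine (norm_sub_le _ _).trans (le_of_eq ?_)
        rw [norm_mul, norm_mul, pw_zero_norm, pw_zero_norm, one_mul, one_mul]
      linarith
    refine (norm_add_le _ _).trans ?_
    rw [b1]
    linarith
  · intro s
    rw [hfp s]
    refine (hK 2 hle2 s).trans (le_of_eq ?_)
    field_simp

theorem t_LK (h : S_1DA) (h2 : S_REV) : S_LK := by
  intro V hVc hVs hV0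
  obtain ⟨M, hM⟩ : ∃ M : ℝ, ∀ s, V s ≤ M := by
    obtain ⟨M, hM⟩ := hVs.exists_bound_of_continuous hVc
    exact ⟨M, fun s => (le_abs_self _).trans (by simpa using hM s)⟩
  have hM0 : 0 ≤ M := (hV0 0).trans (hM 0)
  have hI0 : 0 ≤ ∫ s, V s := integral_nonneg hV0
  refine ⟨2 + 2 * M + ∫ s, V s, max 1 (∫ s, V s), by positivity, by positivity, ?_⟩
  intro k f r t hk hlr
  have hk1 : 1 ≤ k := (le_max_left _ _).trans hk
  have hkI : ∫ s, V s ≤ k := (le_max_right _ _).trans hk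
  have hk0 : 0 < k := by linarith
  -- from the left
  have L : LeftIn1 k V f r t → _ := left h V hVc hVs hV0 k hk1 hkI f r t
  -- from the right
  have R : RightIn1 k V f r t → (∀ s, ‖f s‖ ≤ 2) ∧ (∀ s, ‖deriv f s‖ ≤ 2 * k) ∧
      (∀ s, f s = pw (-k) s + K0 k V f s) ∧ ∀ s, ‖f s - pw (-k) s‖ ≤ (∫ s, V s) / k := by
    intro hr
    have hVi : ∫ s, V (-s) = ∫ s, V s := integral_neg_eq_self V volume
    have hl := (h2.2.2 k V f r t).1 hr
    obtain ⟨a1, a2, a3, a4⟩ := left h (fun s => V (-s)) (hVc.comp continuous_neg)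
      (hVs.comp_homeomorph (Homeomorph.neg ℝ)) (fun s => hV0 _) k hk1 (by rw [hVi]; exact hkI) _ r t hl
    rw [hVi] at a4
    refine ⟨fun s => ?_, fun s => ?_, fun s => ?_, fun s => ?_⟩
    · have := a1 (-s)
      simpa using this
    · have := a2 (-s)
      rw [deriv_comp_neg] at this
      simpa using this
    · have h3 := a3 (-s)
      simp only [neg_neg] at h3
      rw [h3, pw_neg_arg]
      congr 1
      unfold K0
      rw [← integral_neg_eq_self (fun t => g0 k (s - t) * ((V t : ℂ) * f t)) volume]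
      apply integral_congr_ae
      filter_upwards with u
      have : g0 k (-s - u) = g0 k (s - -u) := by
        unfold g0
        rw [show -s - u = -(s - -u) by ring, abs_neg]
      rw [this]
    · have h3 := a4 (-s)
      simp only [neg_neg, pw_neg_arg] at h3
      exact h3
  have hsol : Sol1 k V f := by
    rcases hlr with h3 | h3
    · exact h3.1
    · exact h3.1
  have hcom : (∀ s, ‖f s‖ ≤ 2) ∧ (∀ s, ‖deriv f s‖ ≤ 2 * k) := by
    rcases hlr with h3 | h3
    · exact ⟨(L h3).1, (L h3).2.1⟩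
    · exact ⟨(R h3).1, (R h3).2.1⟩
  have hdiv : (∫ s, V s) / k ≤ (2 + 2 * M + ∫ s, V s) / k := by
    apply div_le_div_of_nonneg_right _ hk0.le
    linarith
  refine ⟨hsol.smooth, hcom.1, fun s => ?_, fun s => ?_, fun h3 => ?_, fun h3 => ?_⟩
  · refine (hcom.2 s).trans ?_
    apply mul_le_mul_of_nonneg_right _ hk0.le
    linarith
  · have h5 : deriv (deriv f) s = -(((k ^ 2 + V s : ℝ) : ℂ) * f s) := by
      have := hsol.eq s
      push_cast at this ⊢
      linear_combination -this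
    rw [h5, norm_neg, norm_mul, Complex.norm_real, Real.norm_eq_abs,
      abs_of_nonneg (add_nonneg (sq_nonneg k) (hV0 s))]
    have h6 : (k ^ 2 + V s) * ‖f s‖ ≤ (k ^ 2 + M) * 2 :=
      mul_le_mul (by linarith [hM s]) (hcom.1 s) (norm_nonneg _) (by positivity)
    refine h6.trans ?_
    nlinarith [sq_nonneg (k - 1), mul_nonneg hM0 (show (0 : ℝ) ≤ k ^ 2 - 1 by nlinarith),
      mul_nonneg hI0 (sq_nonneg k)]
  · exact ⟨(L h3).2.2.1, fun s => ((L h3).2.2.2 s).trans hdiv⟩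
  · exact ⟨(R h3).2.2.1, fun s => ((R h3).2.2.2 s).trans hdiv⟩

end Pool.Agent.E8helper59.LC
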